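import Pool.Agent.Results.MP_626926_al.GroupEmbedding
import Pool.Agent.Results.MP_626926_al.MonoidEmbedding
import Pool.Agent.Y352.LL.Base

set_option autoImplicit false

/-! The lattice of all subspaces of a finite-dimensional vector space over any field of cardinality
at most continuum, and the lattice of the closed subgroups of any complete separable ultrametric
abelian group, embed completely into the lattice of local monoids and into the lattice of locally
closed permutation groups on a countably infinite set. -/

universe u v w

namespace Pool.Agent.Results.MP_626926_al.SubspaceLattices

open Cardinal Pool.Agent.W344.LocalLat Pool.Agent.Y352.LL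

/-- Let `X` be a countably infinite set.

1. For every complete separable ultrametric normed abelian group `A` there are complete embeddings
of the lattice of the closed subgroups of `A` into the lattice of the local monoids on `X` and into
the lattice of the locally closed permutation groups on `X`.

2. For every field `F` of cardinality at most `2^ℵ₀` and every finite-dimensional vector space `V`
over `F` there are complete embeddings of the lattice of all subspaces of `V` into the lattice of
the local monoids on `X` and into the lattice of the locally closed permutation groups on `X`.

3. Let `M` be a lattice with least element `⊥` and greatest element `⊤` such that the elements other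
than `⊥` and `⊤` form an antichain of cardinality `2^ℵ₀`.  Then there are injective lattice
homomorphisms of `M` into the lattice of the local monoids on `X` and into the lattice of the locally
closed permutation groups on `X`. -/
theorem result (X : Type u) [Countable X] [Infinite X] :
    (∀ (A : Type) [NormedAddCommGroup A] [IsUltrametricDist A] [CompleteSpace A]
        [TopologicalSpace.SeparableSpace A],
      (∃ f : ClosedSub A → LocalMonoid X, IsCompleteEmbedding f) ∧
        ∃ f : ClosedSub A → LocalGroup X, IsCompleteEmbedding f) ∧
    (∀ (F : Type v) [Field F], #F ≤ 𝔠 →
      ∀ (V : Type w) [AddCommGroup V] [Module F V] [FiniteDimensional F V],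
      (∃ f : Submodule F V → LocalMonoid X, IsCompleteEmbedding f) ∧
        ∃ f : Submodule F V → LocalGroup X, IsCompleteEmbedding f) ∧
    ∀ (M : Type v) [Lattice M] [BoundedOrder M],
      IsAntichain (· ≤ ·) {a : M | a ≠ ⊥ ∧ a ≠ ⊤} → #{a : M // a ≠ ⊥ ∧ a ≠ ⊤} = 𝔠 →
      (∃ f : LatticeHom M (LocalMonoid X), Function.Injective f) ∧
        ∃ f : LatticeHom M (LocalGroup X), Function.Injective f :=
  ⟨fun A _ _ _ _ => exists_embeddings (A := A) X,
    fun F _ hF V _ _ _ => exists_subspace_embeddings F hF V X,
    fun M _ _ h1 h2 => ⟨MonoidEmbedding.result X M h1 h2, GroupEmbedding.result X M h1 h2⟩⟩

end Pool.Agent.Results.MP_626926_al.SubspaceLattices
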